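import Pool.Agent.N550.OC.Stm

/-!
# Project OC (MP_6c077c_gt), lemmas for the leaf P1B
-/

set_option autoImplicit false

open Set Filter Topology Metric Function MeasureTheory
open scoped Manifold ContDiff

namespace Pool.Agent.N441.OC

open Pool.Agent.Y522

theorem punct {k : ℕ} (hk : 2 ≤ k) (c : E k) {δ : ℝ} (hδ : 0 < δ) :
    IsPreconnected (ball c δ \ {c}) := by
  have h1 : 1 < Module.rank ℝ (E k) := by
    rw [← Module.finrank_eq_rank, finrank_euclideanSpace_fin]
    exact_mod_cast hk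
  have h2 := (isConnected_compl_singleton_of_one_lt_rank h1 (0 : E k)).isPreconnected
  have h3 : ball c δ \ {c} = OpenPartialHomeomorph.univBall c δ '' {0}ᶜ := by
    ext x
    constructor
    · rintro ⟨hx, hxc⟩
      have hx' : x ∈ (OpenPartialHomeomorph.univBall c δ).target := by
        rw [OpenPartialHomeomorph.univBall_target c hδ]; exact hx
      refine ⟨(OpenPartialHomeomorph.univBall c δ).symm x, ?_, 
        (OpenPartialHomeomorph.univBall c δ).right_inv hx'⟩
      intro h0
      apply hxc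
      have := (OpenPartialHomeomorph.univBall c δ).right_inv hx'
      rw [mem_singleton_iff.1 h0, OpenPartialHomeomorph.univBall_apply_zero] at this
      exact this.symm
    · rintro ⟨y, hy, rfl⟩
      have hy' : y ∈ (OpenPartialHomeomorph.univBall c δ).source := by
        rw [OpenPartialHomeomorph.univBall_source]; trivial
      refine ⟨?_, ?_⟩
      · have := (OpenPartialHomeomorph.univBall c δ).map_source hy'
        rwa [OpenPartialHomeomorph.univBall_target c hδ] at this
      · intro h0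
        apply hy
        have h00 : (0 : E k) ∈ (OpenPartialHomeomorph.univBall c δ).source := by
          rw [OpenPartialHomeomorph.univBall_source]; trivial
        apply (OpenPartialHomeomorph.univBall c δ).injOn hy' h00
        rw [OpenPartialHomeomorph.univBall_apply_zero]
        exact h0
  rw [h3]
  exact h2.image _ (OpenPartialHomeomorph.continuous_univBall c δ).continuousOn

theorem open_reg {k : ℕ} (g : E k → E k) (U : Set (E k)) (hU : IsOpen U)
    (hreg : ∀ y ∈ U, ContDiffAt ℝ ∞ g y ∧ Bijective (fderiv ℝ g y)) : IsOpen (g '' U) := by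
  rw [isOpen_iff_mem_nhds]
  rintro _ ⟨y, hy, rfl⟩
  obtain ⟨h1, h2⟩ := hreg y hy
  have hs : HasStrictFDerivAt g (fderiv ℝ g y) y := h1.hasStrictFDerivAt (by simp)
  let e : E k ≃L[ℝ] E k := ContinuousLinearEquiv.ofBijective (fderiv ℝ g y)
    (LinearMap.ker_eq_bot.2 h2.1) (LinearMap.range_eq_top.2 h2.2)
  have he : HasStrictFDerivAt g (e : E k →L[ℝ] E k) y := by
    have : (e : E k →L[ℝ] E k) = fderiv ℝ g y := by ext; rfl
    rw [this]; exact hs
  rw [← he.map_nhds_eq_of_equiv]
  exact image_mem_map (hU.mem_nhds hy)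

/-- images of balls are open, with one isolated singular point -/
theorem open_image {k : ℕ} (hk : 2 ≤ k) (g : E k → E k) (r : ℝ) (hr : 0 < r)
    (hc : ContinuousOn g (closedBall 0 r)) (hinj : InjOn g (closedBall 0 r))
    (hreg : ∀ y, ‖y‖ < r → y ≠ 0 → ContDiffAt ℝ ∞ g y ∧ Bijective (fderiv ℝ g y)) :
    IsOpen (g '' ball 0 r) := by
  have hW : IsOpen (g '' (ball 0 r \ {0})) := by
    apply open_reg
    · exact isOpen_ball.sdiff isClosed_singleton
    · rintro y ⟨hy, hy0⟩
      exact hreg y (by simpa using hy) hy0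
  have h0 : (0 : E k) ∈ closedBall (0 : E k) r := by simp [hr.le]
  have hK : IsCompact (g '' sphere 0 r) :=
    (isCompact_sphere 0 r).image_of_continuousOn (hc.mono sphere_subset_closedBall)
  have hc0 : g 0 ∉ g '' sphere 0 r := by
    rintro ⟨y, hy, hy2⟩
    have := hinj (sphere_subset_closedBall hy) h0 hy2
    rw [this] at hy
    simp at hy
    exact hr.ne hy
  obtain ⟨δ, hδ, hδs⟩ := Metric.isOpen_iff.1 hK.isClosed.isOpen_compl (g 0) hc0
  have hN := punct hk (g 0) hδ
  have hKK : IsCompact (g '' closedBall 0 r) := (isCompact_closedBall 0 r).image_of_continuousOn hc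
  have hsub : ball (g 0) δ \ {g 0} ⊆ g '' (ball 0 r \ {0}) := by
    apply hN.subset_left_of_subset_union hW hKK.isClosed.isOpen_compl
    · rw [Set.disjoint_left]
      rintro _ ⟨y, hy, rfl⟩ h
      exact h ⟨y, ball_subset_closedBall hy.1, rfl⟩
    · rintro x ⟨hx, hx0⟩
      by_cases h : x ∈ g '' closedBall 0 r
      · left
        obtain ⟨y, hy, rfl⟩ := h
        refine ⟨y, ⟨?_, ?_⟩, rfl⟩
        · rcases (mem_closedBall.1 hy).lt_or_eq with h' | h'
          · exact mem_ball.2 h'
          · exact absurd ⟨y, mem_sphere.2 h', rfl⟩ (hδs hx)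
        · intro h'
          apply hx0
          rw [mem_singleton_iff.1 h']; rfl
      · right; exact h
    · -- nonempty
      have hca : ContinuousAt g 0 := hc.continuousAt (closedBall_mem_nhds 0 hr)
      obtain ⟨η, hη, hη2⟩ := Metric.continuousAt_iff.1 hca δ hδ
      have hne : ∃ v : E k, ‖v‖ = 1 := by
        refine ⟨EuclideanSpace.single (⟨0, by omega⟩ : Fin k) 1, by simp⟩
      obtain ⟨v, hv⟩ := hne
      have hm : 0 < min η r / 2 := by positivity
      have hnv : ‖(min η r / 2) • v‖ = min η r / 2 := by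
        rw [norm_smul, hv, mul_one, Real.norm_of_nonneg hm.le]
      have hv0 : (min η r / 2) • v ≠ 0 := by
        intro h; rw [h, norm_zero] at hnv; linarith
      have hlt1 : min η r / 2 < η := by have := min_le_left η r; linarith
      have hlt2 : min η r / 2 < r := by have := min_le_right η r; linarith
      refine ⟨g ((min η r / 2) • v), ⟨?_, ?_⟩, ⟨(min η r / 2) • v, ⟨?_, hv0⟩, rfl⟩⟩
      · apply hη2
        rw [dist_zero_right, hnv]; exact hlt1
      · intro h
        apply hv0
        exact hinj (by simp [hnv, hlt2.le]) h0 h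
      · simp [hnv, hlt2]
  rw [isOpen_iff_mem_nhds]
  rintro _ ⟨y, hy, rfl⟩
  by_cases hy0 : y = 0
  · subst hy0
    refine mem_of_superset (ball_mem_nhds (g 0) hδ) ?_
    intro x hx
    by_cases hx0 : x = g 0
    · exact ⟨0, by simp [hr], hx0.symm⟩
    · obtain ⟨z, hz, hz2⟩ := hsub ⟨hx, hx0⟩
      exact ⟨z, hz.1, hz2⟩
  · refine mem_of_superset (hW.mem_nhds ⟨y, ⟨hy, hy0⟩, rfl⟩) ?_
    exact image_mono sdiff_subset

/-- the two images agree -/
theorem key_le {k : ℕ} (g F : E k → E k) (r r' : ℝ) (hk : 1 ≤ k) (hr' : 0 < r') (hrr : r' < r)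
    (hU : IsOpen (g '' ball 0 r)) (hg : ContinuousOn g (closedBall 0 r))
    (hF : ContinuousOn F (closedBall 0 r)) (hinj : InjOn F (closedBall 0 r))
    (heq : ∀ y, r' ≤ ‖y‖ → ‖y‖ ≤ r → F y = g y) : F '' ball 0 r ⊆ g '' ball 0 r := by
  have hKK : IsCompact (g '' closedBall 0 r) := (isCompact_closedBall 0 r).image_of_continuousOn hg
  have hpre : IsPreconnected (F '' ball 0 r) :=
    (isPreconnected_ball).image _ (hF.mono ball_subset_closedBall)
  apply hpre.subset_left_of_subset_union hU hKK.isClosed.isOpen_compl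
  · rw [Set.disjoint_left]
    rintro _ ⟨y, hy, rfl⟩ h
    exact h ⟨y, ball_subset_closedBall hy, rfl⟩
  · rintro _ ⟨x, hx, rfl⟩
    by_cases h : F x ∈ g '' closedBall 0 r
    · left
      obtain ⟨y, hy, hyx⟩ := h
      refine ⟨y, ?_, hyx⟩
      rcases (mem_closedBall.1 hy).lt_or_eq with h' | h'
      · exact mem_ball.2 h'
      · exfalso
        rw [dist_zero_right] at h'
        have h1 : F y = F x := by rw [heq y (by rw [h']; exact hrr.le) h'.le, hyx]
        have h2 := hinj hy (ball_subset_closedBall hx) h1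
        rw [← h2] at hx
        simp [h'] at hx
    · right; exact h
  · obtain ⟨v, hv⟩ : ∃ v : E k, ‖v‖ = 1 :=
      ⟨EuclideanSpace.single (⟨0, by omega⟩ : Fin k) 1, by simp⟩
    have hnv : ‖r' • v‖ = r' := by
      rw [norm_smul, hv, mul_one, Real.norm_of_nonneg hr'.le]
    refine ⟨F (r' • v), ⟨r' • v, by simp [hnv, hrr], rfl⟩, ⟨r' • v, by simp [hnv, hrr], ?_⟩⟩
    rw [heq _ (by rw [hnv]) (by rw [hnv]; exact hrr.le)]

theorem key {k : ℕ} (g F : E k → E k) (r r' : ℝ) (hk : 1 ≤ k) (hr' : 0 < r') (hrr : r' < r)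
    (hU : IsOpen (g '' ball 0 r)) (hV : IsOpen (F '' ball 0 r))
    (hg : ContinuousOn g (closedBall 0 r)) (hF : ContinuousOn F (closedBall 0 r))
    (hgi : InjOn g (closedBall 0 r)) (hFi : InjOn F (closedBall 0 r))
    (heq : ∀ y, r' ≤ ‖y‖ → ‖y‖ ≤ r → F y = g y) : F '' ball 0 r = g '' ball 0 r :=
  Subset.antisymm (key_le g F r r' hk hr' hrr hU hg hF hFi heq)
    (key_le F g r r' hk hr' hrr hV hF hg hgi (fun y h1 h2 => (heq y h1 h2).symm))

/-- points near the singular value are in the images -/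
theorem near {k : ℕ} (g : ℝ → E k → E k) (t₀ r : ℝ) (hr : 0 < r)
    (hc : ∀ y, ‖y‖ ≤ r → ContinuousAt (fun p : ℝ × E k => g p.1 p.2) (t₀, y))
    (hinj : InjOn (g t₀) (closedBall 0 r))
    (hop : ∀ᶠ t in 𝓝 t₀, IsOpen (g t '' ball 0 r))
    (hcl : ∀ᶠ t in 𝓝 t₀, ContinuousOn (g t) (closedBall 0 r)) :
    ∀ᶠ p : ℝ × E k in 𝓝 (t₀, g t₀ 0), p.2 ∈ g p.1 '' ball 0 r := by
  have h0 : (0 : E k) ∈ closedBall (0 : E k) r := by simp [hr.le]
  -- distance to the sphere
  have hc0 : ContinuousOn (g t₀) (closedBall 0 r) := fun y hy => by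
    have := hc y (by simpa using hy)
    exact (this.comp (f := fun y => (t₀, y)) (by fun_prop)).continuousWithinAt
  have hK : IsCompact (g t₀ '' sphere 0 r) :=
    (isCompact_sphere 0 r).image_of_continuousOn (hc0.mono sphere_subset_closedBall)
  have hcs : g t₀ 0 ∉ g t₀ '' sphere 0 r := by
    rintro ⟨y, hy, hy2⟩
    have := hinj (sphere_subset_closedBall hy) h0 hy2
    rw [this] at hy
    simp at hy
    exact hr.ne hy
  obtain ⟨δ, hδ, hδs⟩ := Metric.isOpen_iff.1 hK.isClosed.isOpen_compl (g t₀ 0) hcs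
  have hfar : ∀ᶠ t in 𝓝 t₀, ∀ y ∈ sphere (0 : E k) r, δ / 2 < dist (g t y) (g t₀ 0) := by
    apply IsCompact.eventually_forall_of_forall_eventually (isCompact_sphere 0 r)
    intro y hy
    have h1 : δ / 2 < dist (g t₀ y) (g t₀ 0) := by
      by_contra hcon
      have : g t₀ y ∈ ball (g t₀ 0) δ := by
        rw [mem_ball]; linarith
      exact hδs this ⟨y, hy, rfl⟩
    have h2 : ContinuousAt (fun p : ℝ × E k => dist (g p.1 p.2) (g t₀ 0)) (t₀, y) :=
      (hc y (by simpa using (sphere_subset_closedBall hy))).dist continuousAt_const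
    exact h2.eventually (lt_mem_nhds h1)
  have hnear : ∀ᶠ t in 𝓝 t₀, dist (g t 0) (g t₀ 0) < δ / 2 := by
    have h2 : ContinuousAt (fun t : ℝ => g t 0) t₀ :=
      (hc 0 (by simp [hr.le])).comp (f := fun t : ℝ => (t, (0 : E k))) (by fun_prop)
    exact Metric.continuousAt_iff'.1 h2 (δ / 2) (by linarith)
  have hall : ∀ᶠ t in 𝓝 t₀, ball (g t₀ 0) (δ / 2) ⊆ g t '' ball 0 r := by
    filter_upwards [hfar, hnear, hop, hcl] with t h1 h2 h3 h4
    have hKK : IsCompact (g t '' closedBall 0 r) :=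
      (isCompact_closedBall 0 r).image_of_continuousOn h4
    apply isPreconnected_ball.subset_left_of_subset_union h3 hKK.isClosed.isOpen_compl
    · rw [Set.disjoint_left]
      rintro _ ⟨y, hy, rfl⟩ h
      exact h ⟨y, ball_subset_closedBall hy, rfl⟩
    · intro x hx
      by_cases h : x ∈ g t '' closedBall 0 r
      · left
        obtain ⟨y, hy, rfl⟩ := h
        refine ⟨y, ?_, rfl⟩
        rcases (mem_closedBall.1 hy).lt_or_eq with h' | h'
        · exact mem_ball.2 h'
        · have := h1 y (mem_sphere.2 h')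
          rw [mem_ball] at hx
          linarith
      · right; exact h
    · exact ⟨g t 0, mem_ball.2 h2, 0, by simp [hr], rfl⟩
  have e1 : ∀ᶠ p : ℝ × E k in 𝓝 (t₀, g t₀ 0), ball (g t₀ 0) (δ / 2) ⊆ g p.1 '' ball 0 r := by
    have h : Tendsto (Prod.fst : ℝ × E k → ℝ) (𝓝 (t₀, g t₀ 0)) (𝓝 t₀) := continuousAt_fst
    exact h.eventually hall
  have e2 : ∀ᶠ p : ℝ × E k in 𝓝 (t₀, g t₀ 0), p.2 ∈ ball (g t₀ 0) (δ / 2) := by
    have h : Tendsto (Prod.snd : ℝ × E k → E k) (𝓝 (t₀, g t₀ 0)) (𝓝 (g t₀ 0)) := continuousAt_snd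
    exact h.eventually (ball_mem_nhds _ (by linarith))
  filter_upwards [e1, e2] with p h1 h2
  exact h1 h2

end Pool.Agent.N441.OC
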